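import Mathlib
import Pool.Agent.V11306.FeDet
import Pool.Agent.V11306.Transfer

/-!
# Determinants of `(j+k/p) ± (j-k/p)` over a half range, `p ≡ 1 (mod 4)`
-/

set_option autoImplicit false

namespace Pool.Agent.V11306.FeQ1

open Finset Matrix Pool.Agent.V11306.Conv

variable {p : ℕ} [Fact p.Prime]

/-- The matrix with rows and columns indexed by `1, …, (p-1)/2` (here `j` stands for `j + 1`) and
entries `(j+k/p) - (j-k/p)`. -/
def matA (p : ℕ) [Fact p.Prime] : Matrix (Fin ((p - 1) / 2)) (Fin ((p - 1) / 2)) ℤ :=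
  Matrix.of fun j k =>
    legendreSym p ((((j : ℕ) : ℤ) + 1) + (((k : ℕ) : ℤ) + 1)) -
    legendreSym p ((((j : ℕ) : ℤ) + 1) - (((k : ℕ) : ℤ) + 1))

/-- The matrix with rows and columns indexed by `1, …, (p-1)/2` (here `j` stands for `j + 1`) and
entries `x + (j+k/p) + (j-k/p) + (j/p) y + (k/p) z + (jk/p) w`, over a commutative ring. -/
def matD (p : ℕ) [Fact p.Prime] {R : Type*} [CommRing R] (x y z w : R) :
    Matrix (Fin ((p - 1) / 2)) (Fin ((p - 1) / 2)) R :=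
  Matrix.of fun j k => x
    + ((legendreSym p ((((j : ℕ) : ℤ) + 1) + (((k : ℕ) : ℤ) + 1)) : ℤ) : R)
    + ((legendreSym p ((((j : ℕ) : ℤ) + 1) - (((k : ℕ) : ℤ) + 1)) : ℤ) : R)
    + ((legendreSym p (((j : ℕ) : ℤ) + 1) : ℤ) : R) * y
    + ((legendreSym p (((k : ℕ) : ℤ) + 1) : ℤ) : R) * z
    + ((legendreSym p ((((j : ℕ) : ℤ) + 1) * (((k : ℕ) : ℤ) + 1)) : ℤ) : R) * w

lemma leg_cast (a : ℤ) : ((legendreSym p a : ℤ) : ℚ) = q (a : ZMod p) := rfl

lemma detA (h1 : p % 4 = 1) : (matA p).det = (-(p : ℤ)) ^ ((p - 1) / 4) := by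
  have key := det_Am (p := p) h1 ((p - 1) / 2) ((p - 1) / 4) (by omega) (by omega)
  have e : (matA p).map (Int.castRingHom ℚ) = Am p ((p - 1) / 2) := by
    ext j k
    rw [Matrix.map_apply]
    simp only [matA, Am, Matrix.of_apply, eq_intCast, Int.cast_sub, leg_cast]
    push_cast
    rfl
  have h2 : ((matA p).det : ℚ) = ((-(p : ℤ)) ^ ((p - 1) / 4) : ℤ) := by
    rw [← eq_intCast (Int.castRingHom ℚ) (matA p).det, RingHom.map_det,
      RingHom.mapMatrix_apply, e, key]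
    push_cast
    rfl
  exact_mod_cast h2

lemma detD_int (h1 : p % 4 = 1) (x y z w : ℤ) : (matD p x y z w).det =
    (-(p : ℤ)) ^ ((p - 5) / 4) * ((((p - 1) / 2 : ℕ) : ℤ) ^ 2 * w * x -
      ((((p - 1) / 2 : ℕ) : ℤ) * y - 1) * ((((p - 1) / 2 : ℕ) : ℤ) * z - 1)) := by
  have hp := (Fact.out : p.Prime).two_le
  have hp5 : 5 ≤ p := by omega
  have key := det_Dm (p := p) h1 ((p - 1) / 2) ((p - 5) / 4) (by omega) (by omega)
    (x : ℚ) (y : ℚ) (z : ℚ) (w : ℚ)
  have e : (matD p x y z w).map (Int.castRingHom ℚ) = Dm p ((p - 1) / 2) x y z w := by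
    ext j k
    rw [Matrix.map_apply]
    simp only [matD, Dm, Cm, v, Matrix.of_apply, eq_intCast, Int.cast_add, Int.cast_mul,
      Int.cast_id, leg_cast]
    push_cast
    rw [q_mul]
    ring
  have h2 : ((matD p x y z w).det : ℚ) = (((-(p : ℤ)) ^ ((p - 5) / 4) *
      ((((p - 1) / 2 : ℕ) : ℤ) ^ 2 * w * x -
      ((((p - 1) / 2 : ℕ) : ℤ) * y - 1) * ((((p - 1) / 2 : ℕ) : ℤ) * z - 1)) : ℤ) : ℚ) := by
    rw [← eq_intCast (Int.castRingHom ℚ) (matD p x y z w).det, RingHom.map_det,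
      RingHom.mapMatrix_apply, e, key]
    simp only [Int.cast_mul, Int.cast_sub, Int.cast_pow, Int.cast_neg, Int.cast_natCast,
      Int.cast_one]
  exact_mod_cast h2

end Pool.Agent.V11306.FeQ1

open Pool.Agent.V11306.FeQ1 MvPolynomial in
/-- `MP_fe1d70_nt`, Q1: both identities hold for every prime `p ≡ 1 (mod 4)`; the second one for
parameters in an arbitrary commutative ring, hence as an identity of polynomials. -/
theorem Pool.Agent.Results.MP_fe1d70_nt.OneModFour.result (p : ℕ) [Fact p.Prime]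
    (h1 : p % 4 = 1) :
    (matA p).det = (-(p : ℤ)) ^ ((p - 1) / 4) ∧
    ∀ (R : Type*) [CommRing R] (x y z w : R),
      (matD p x y z w).det = (-(p : R)) ^ ((p - 5) / 4) *
        ((((p - 1) / 2 : ℕ) : R) ^ 2 * w * x -
          ((((p - 1) / 2 : ℕ) : R) * y - 1) * ((((p - 1) / 2 : ℕ) : R) * z - 1)) := by
  refine ⟨detA h1, ?_⟩
  intro R _ x y z w
  have hT := Pool.Agent.V11306.Transfer.transfer (m := (p - 1) / 2)
    (fun j k => legendreSym p ((((j : ℕ) : ℤ) + 1) + (((k : ℕ) : ℤ) + 1)) +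
      legendreSym p ((((j : ℕ) : ℤ) + 1) - (((k : ℕ) : ℤ) + 1)))
    (fun j => legendreSym p (((j : ℕ) : ℤ) + 1))
    (fun k => legendreSym p (((k : ℕ) : ℤ) + 1))
    (fun j k => legendreSym p ((((j : ℕ) : ℤ) + 1) * (((k : ℕ) : ℤ) + 1)))
    ((-(C (p : ℤ))) ^ ((p - 5) / 4) *
        ((C (((p - 1) / 2 : ℕ) : ℤ)) ^ 2 * X 3 * X 0 -
          ((C (((p - 1) / 2 : ℕ) : ℤ)) * X 1 - 1) * ((C (((p - 1) / 2 : ℕ) : ℤ)) * X 2 - 1)))
    (by
      intro x y z w
      have := detD_int (p := p) h1 x y z w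
      have e : (matD p x y z w) = Matrix.of fun j k : Fin ((p - 1) / 2) => x +
          ((legendreSym p ((((j : ℕ) : ℤ) + 1) + (((k : ℕ) : ℤ) + 1)) +
      legendreSym p ((((j : ℕ) : ℤ) + 1) - (((k : ℕ) : ℤ) + 1)))) +
          legendreSym p (((j : ℕ) : ℤ) + 1) * y + legendreSym p (((k : ℕ) : ℤ) + 1) * z +
          legendreSym p ((((j : ℕ) : ℤ) + 1) * (((k : ℕ) : ℤ) + 1)) * w := by
        ext j k
        simp only [matD, Matrix.of_apply, Int.cast_id]
        ring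
      rw [← e, this]
      simp)
    x y z w
  have e : (matD p x y z w) = Matrix.of fun j k : Fin ((p - 1) / 2) => x +
          (((legendreSym p ((((j : ℕ) : ℤ) + 1) + (((k : ℕ) : ℤ) + 1)) +
      legendreSym p ((((j : ℕ) : ℤ) + 1) - (((k : ℕ) : ℤ) + 1)) : ℤ)) : R) +
          ((legendreSym p (((j : ℕ) : ℤ) + 1) : ℤ) : R) * y +
          ((legendreSym p (((k : ℕ) : ℤ) + 1) : ℤ) : R) * z +
          ((legendreSym p ((((j : ℕ) : ℤ) + 1) * (((k : ℕ) : ℤ) + 1)) : ℤ) : R) * w := by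
    ext j k
    simp only [matD, Matrix.of_apply]
    push_cast
    ring
  rw [e, hT]
  rw [← coe_eval₂Hom]
  simp only [map_mul, map_sub, map_pow, map_neg, map_one]
  rw [coe_eval₂Hom, eval₂_C, eval₂_C, eval₂_X, eval₂_X, eval₂_X, eval₂_X]
  simp only [eq_intCast, Int.cast_natCast]
  rfl
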